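import Pool.Agent.Helper29.CY.Goals

/-! Project CY (MP_eaa1a7_co), packet BAS. -/

set_option autoImplicit false

open Module

namespace Pool.Agent.Helper93.CY.BAS

open Pool.Agent.Helper29.CY

theorem two_case {a b : ℝ} (ha : |a| ≤ 1) (hb : |b| ≤ 1) (h1 : 1 ≤ |a - b|) (h2 : 1 ≤ |a + b|) :
    (|a| = 1 ∧ b = 0) ∨ (a = 0 ∧ |b| = 1) := by
  rcases abs_cases a with ⟨e1, e2⟩ | ⟨e1, e2⟩ <;> rcases abs_cases b with ⟨e3, e4⟩ | ⟨e3, e4⟩ <;>
    rcases abs_cases (a - b) with ⟨e5, e6⟩ | ⟨e5, e6⟩ <;>
    rcases abs_cases (a + b) with ⟨e7, e8⟩ | ⟨e7, e8⟩ <;>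
    rw [e1] at ha ⊢ <;> rw [e3] at hb ⊢ <;> rw [e5] at h1 <;> rw [e7] at h2 <;>
    first
      | (left; constructor <;> linarith)
      | (right; constructor <;> linarith)

section

variable {V : Type} [NormedAddCommGroup V] [InnerProductSpace ℝ V]

theorem abs_inner_le {x y : V} (hx : ‖x‖ = 1) (hy : ‖y‖ = 1) : |inner ℝ x y| ≤ 1 := by
  have h := abs_real_inner_le_norm x y
  rwa [hx, hy, mul_one] at h

theorem eq_or_neg {x w : V} (hx : ‖x‖ = 1) (hw : ‖w‖ = 1) (h : |inner ℝ x w| = 1) :
    x = w ∨ x = -w := by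
  rcases abs_cases (inner ℝ x w) with ⟨e1, _⟩ | ⟨e1, _⟩
  · left
    rw [e1] at h
    exact (inner_eq_one_iff_of_norm_eq_one hx hw).1 h
  · right
    rw [e1] at h
    refine (inner_eq_one_iff_of_norm_eq_one (𝕜 := ℝ) hx (by rw [norm_neg, hw])).1 ?_
    rw [inner_neg_right]
    exact h

theorem pair_norm {e y : V} (he : ‖e‖ = 1) (hy : ‖y‖ = 1) (hey : inner ℝ e y = 0) {c d : ℝ}
    (hf : ‖c • e + d • y‖ = 1) : c ^ 2 + d ^ 2 = 1 := by
  have h := norm_add_sq_real (c • e) (d • y)
  rw [hf, real_inner_smul_left, real_inner_smul_right, hey, norm_smul, norm_smul, he, hy,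
    Real.norm_eq_abs, Real.norm_eq_abs] at h
  nlinarith [sq_abs c, sq_abs d]

end

theorem t : S_BAS := by
  intro n V _ _ N u h i k hik
  obtain ⟨f, hfm, hfn, hf⟩ := h.sep i k hik
  obtain ⟨g, hgm, hgn, hg⟩ := h.sep' i k hik
  have hui := h.nrm i
  have huk := h.nrm k
  have hLINE : ∀ w : V, ‖w‖ = 1 → N i ⊓ N k ≤ Submodule.span ℝ {w} →
      (|inner ℝ (u i) w| = 1 ∧ inner ℝ (u k) w = 0) ∨
        (inner ℝ (u i) w = 0 ∧ |inner ℝ (u k) w| = 1) := by
    intro w hw hle
    obtain ⟨c, hc⟩ := Submodule.mem_span_singleton.1 (hle hfm)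
    obtain ⟨d, hd⟩ := Submodule.mem_span_singleton.1 (hle hgm)
    have hc1 : |c| = 1 := by
      rw [← hc, norm_smul, hw, mul_one, Real.norm_eq_abs] at hfn
      exact hfn
    have hd1 : |d| = 1 := by
      rw [← hd, norm_smul, hw, mul_one, Real.norm_eq_abs] at hgn
      exact hgn
    rw [← hc, real_inner_smul_right, inner_sub_left, abs_mul, hc1, one_mul] at hf
    rw [← hd, real_inner_smul_right, inner_add_left, abs_mul, hd1, one_mul] at hg
    exact two_case (abs_inner_le hui hw) (abs_inner_le huk hw) hf hg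
  have hArr : ∀ a b : Fin n, Arr N u a b → ¬ NR N a b ∧ ¬ Arr N u b a := by
    intro a b hab
    obtain ⟨_, h2, h3, h4⟩ := hab
    constructor
    · intro hn
      have h5 : finrank ℝ ↥(N a ⊓ N b) ≤ finrank ℝ ↥(Submodule.span ℝ {u a}) :=
        Submodule.finrank_mono h4
      have h7 : u a ≠ 0 := by
        intro h0
        have := h.nrm a
        rw [h0, norm_zero] at this
        exact zero_ne_one this
      have h6 : finrank ℝ ↥(Submodule.span ℝ {u a}) = 1 := finrank_span_singleton h7
      unfold NR at hn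
      omega
    · rintro ⟨_, k2, k3, k4⟩
      have h5 : u b ∈ N a ⊓ N b := ⟨k2, h.mem b⟩
      obtain ⟨c, hc⟩ := Submodule.mem_span_singleton.1 (h4 h5)
      rw [← hc, real_inner_smul_right, real_inner_self_eq_norm_sq, h.nrm a] at h3
      have hc0 : c = 0 := by linarith
      rw [hc0, zero_smul] at hc
      have := h.nrm b
      rw [← hc, norm_zero] at this
      exact zero_ne_one this
  refine ⟨?_, hLINE, ?_, ?_, ?_, hArr i k⟩
  · have h1 := abs_real_inner_le_norm (u i - u k) f
    have h2 := abs_real_inner_le_norm (u i + u k) g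
    rw [hfn, mul_one] at h1
    rw [hgn, mul_one] at h2
    have h3 := norm_sub_sq_real (u i) (u k)
    have h4 := norm_add_sq_real (u i) (u k)
    rw [hui, huk] at h3 h4
    have h5 : 1 ≤ ‖u i - u k‖ := hf.trans h1
    have h6 : 1 ≤ ‖u i + u k‖ := hg.trans h2
    rw [abs_le]
    constructor <;> nlinarith
  · intro e y he hy hey hle
    obtain ⟨c, d, hcd⟩ := Submodule.mem_span_pair.1 (hle hfm)
    obtain ⟨c', d', hcd'⟩ := Submodule.mem_span_pair.1 (hle hgm)
    have h1 : c ^ 2 + d ^ 2 = 1 := pair_norm he hy hey (by rw [hcd]; exact hfn)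
    have h2 : c' ^ 2 + d' ^ 2 = 1 := pair_norm he hy hey (by rw [hcd']; exact hgn)
    rw [← hcd, inner_add_right, real_inner_smul_right, real_inner_smul_right, inner_sub_left,
      inner_sub_left] at hf
    rw [← hcd', inner_add_right, real_inner_smul_right, real_inner_smul_right, inner_add_left,
      inner_add_left] at hg
    constructor
    · have h3 : 1 ≤ (c * (inner ℝ (u i) e - inner ℝ (u k) e) +
          d * (inner ℝ (u i) y - inner ℝ (u k) y)) ^ 2 := by
        rw [← sq_abs]
        exact one_le_pow₀ hf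
      nlinarith [sq_nonneg (c * (inner ℝ (u i) y - inner ℝ (u k) y) -
        d * (inner ℝ (u i) e - inner ℝ (u k) e))]
    · have h3 : 1 ≤ (c' * (inner ℝ (u i) e + inner ℝ (u k) e) +
          d' * (inner ℝ (u i) y + inner ℝ (u k) y)) ^ 2 := by
        rw [← sq_abs]
        exact one_le_pow₀ hg
      nlinarith [sq_nonneg (c' * (inner ℝ (u i) y + inner ℝ (u k) y) -
        d' * (inner ℝ (u i) e + inner ℝ (u k) e))]
  · intro e w he hw hew hle h1 h2
    obtain ⟨c, d, hcd⟩ := Submodule.mem_span_pair.1 (hle hfm)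
    obtain ⟨c', d', hcd'⟩ := Submodule.mem_span_pair.1 (hle hgm)
    have h3 : c ^ 2 + d ^ 2 = 1 := pair_norm he hw hew (by rw [hcd]; exact hfn)
    have h4 : c' ^ 2 + d' ^ 2 = 1 := pair_norm he hw hew (by rw [hcd']; exact hgn)
    rw [← hcd, inner_add_right, real_inner_smul_right, real_inner_smul_right, inner_sub_left,
      inner_sub_left, h1, h2, sub_zero, mul_zero, zero_add, abs_mul] at hf
    rw [← hcd', inner_add_right, real_inner_smul_right, real_inner_smul_right, inner_add_left,
      inner_add_left, h1, h2, add_zero, mul_zero, zero_add, abs_mul] at hg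
    have h5 : |d| ≤ 1 := by rw [abs_le]; constructor <;> nlinarith [sq_nonneg c]
    have h6 : |d'| ≤ 1 := by rw [abs_le]; constructor <;> nlinarith [sq_nonneg c']
    have h7 : 1 ≤ |inner ℝ (u i) w - inner ℝ (u k) w| :=
      hf.trans (mul_le_of_le_one_left (abs_nonneg _) h5)
    have h8 : 1 ≤ |inner ℝ (u i) w + inner ℝ (u k) w| :=
      hg.trans (mul_le_of_le_one_left (abs_nonneg _) h6)
    rcases two_case (abs_inner_le hui hw) (abs_inner_le huk hw) h7 h8 with ⟨h9, h10⟩ | ⟨h9, h10⟩
    · exact Or.inl ⟨eq_or_neg hui hw h9, h10⟩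
    · exact Or.inr ⟨eq_or_neg huk hw h10, h9⟩
  · by_cases hn : NR N i k
    · exact Or.inl hn
    · right
      have hfin : FiniteDimensional ℝ (N i) := by
        apply Module.finite_of_finrank_pos
        rw [h.dim i]
        norm_num
      have hfin2 : FiniteDimensional ℝ ↥(N i ⊓ N k) :=
        Submodule.finiteDimensional_of_le inf_le_left
      have hf0 : f ≠ 0 := by
        rintro rfl
        rw [norm_zero] at hfn
        exact zero_ne_one hfn
      have h1 : Submodule.span ℝ {f} ≤ N i ⊓ N k := by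
        rw [Submodule.span_singleton_le_iff_mem]
        exact hfm
      have h2 : finrank ℝ ↥(N i ⊓ N k) ≤ finrank ℝ ↥(Submodule.span ℝ {f}) := by
        rw [finrank_span_singleton hf0]
        unfold NR at hn
        omega
      have h3 : Submodule.span ℝ {f} = N i ⊓ N k := Submodule.eq_of_le_of_finrank_le h1 h2
      rcases hLINE f hfn h3.ge with ⟨h4, h5⟩ | ⟨h4, h5⟩
      · left
        rcases eq_or_neg hui hfn h4 with h6 | h6
        · refine ⟨hik, ?_, ?_, ?_⟩
          · rw [h6]; exact hfm.2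
          · rw [h6, real_inner_comm]; exact h5
          · rw [h6]; exact h3.ge
        · refine ⟨hik, ?_, ?_, ?_⟩
          · rw [h6]; exact (N k).neg_mem hfm.2
          · rw [h6, inner_neg_left, real_inner_comm, h5, neg_zero]
          · rw [h6, ← Set.neg_singleton, Submodule.span_neg]; exact h3.ge
      · right
        rcases eq_or_neg huk hfn h5 with h6 | h6
        · refine ⟨hik.symm, ?_, ?_, ?_⟩
          · rw [h6]; exact hfm.1
          · rw [h6, real_inner_comm]; exact h4
          · rw [h6, inf_comm]; exact h3.ge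
        · refine ⟨hik.symm, ?_, ?_, ?_⟩
          · rw [h6]; exact (N i).neg_mem hfm.1
          · rw [h6, inner_neg_left, real_inner_comm, h4, neg_zero]
          · rw [h6, inf_comm, ← Set.neg_singleton, Submodule.span_neg]; exact h3.ge

end Pool.Agent.Helper93.CY.BAS
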